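import Pool.Agent.Run7.h513.BGB.Step

/-!
# The base of the induction
-/

namespace Run7.h513.BGB

open Relation Finset

/-- bounded functions with prescribed sum that are positive on a given set -/
lemma exists_mult {ι : Type*} [Fintype ι] [DecidableEq ι] (T : Finset ι) {k : ℕ} (hk : 1 ≤ k)
    (q : ℕ) (h1 : T.card ≤ q) (h2 : q ≤ k * Fintype.card ι) :
    ∃ g : ι → ℕ, (∀ i, g i ≤ k) ∧ (∀ i ∈ T, 1 ≤ g i) ∧ ∑ i, g i = q := by
  induction q, h1 using Nat.le_induction with
  | base =>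
    refine ⟨fun i => if i ∈ T then 1 else 0, fun i => ?_, fun i hi => ?_, ?_⟩
    · dsimp only; split_ifs <;> omega
    · simp [hi]
    · simp
  | succ q hq ih =>
    obtain ⟨g, hg1, hg2, hg3⟩ := ih (by omega)
    have : ∃ i, g i < k := by
      by_contra hcon
      push Not at hcon
      have : ∑ i : ι, k ≤ ∑ i, g i := Finset.sum_le_sum fun i _ => hcon i
      rw [Finset.sum_const, Finset.card_univ, smul_eq_mul, hg3, Nat.mul_comm] at this
      omega
    obtain ⟨i0, hi0⟩ := this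
    refine ⟨fun i => g i + if i = i0 then 1 else 0, fun i => ?_, fun i hi => ?_, ?_⟩
    · by_cases h : i = i0
      · subst h; simp; omega
      · simp [h, hg1 i]
    · exact (hg2 i hi).trans (Nat.le_add_right _ _)
    · rw [Finset.sum_add_distrib, hg3]; simp

variable {m : ℕ} [NeZero m]

lemma base_conn {α : Type*} {r : α × ZMod m × ZMod m → α × ZMod m × ZMod m → Prop} {v : α}
    (A1 : ∀ s L, EqvGen r (v, s, L) (v, s + 1, L)) (A2 : ∀ s L, EqvGen r (v, s, L) (v, s, L + 1))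
    (x x' : ZMod m × ZMod m) : EqvGen r (v, x) (v, x') := by
  have B1 : ∀ (n : ℕ) s L, EqvGen r (v, s, L) (v, s + n, L) := by
    intro n
    induction n with
    | zero => intro s L; rw [Nat.cast_zero, add_zero]; exact EqvGen.refl _
    | succ n ih =>
      intro s L
      have := (ih s L).trans _ _ _ (A1 _ _)
      rw [add_assoc] at this
      rw [Nat.cast_succ]; exact this
  have B2 : ∀ (n : ℕ) s L, EqvGen r (v, s, L) (v, s, L + n) := by
    intro n
    induction n with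
    | zero => intro s L; rw [Nat.cast_zero, add_zero]; exact EqvGen.refl _
    | succ n ih =>
      intro s L
      have := (ih s L).trans _ _ _ (A2 _ _)
      rw [add_assoc] at this
      rw [Nat.cast_succ]; exact this
  obtain ⟨s, L⟩ := x
  obtain ⟨s', L'⟩ := x'
  have h1 := B1 (s' - s).val s L
  rw [ZMod.natCast_zmod_val, add_sub_cancel] at h1
  have h2 := B2 (L' - L).val s' L
  rw [ZMod.natCast_zmod_val, add_sub_cancel] at h2
  exact h1.trans _ _ _ h2

/-! ### words of length one -/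

/-- weight on words of length one -/
def wt1 (g : ZMod m → ℕ) : (Fin 1 → ZMod m) → ℕ := fun w => g (w 0)

lemma wt1_bal (g : ZMod m → ℕ) (v : Fin 0 → ZMod m) :
    ∑ w with tl w = v, wt1 g w = ∑ w with ini w = v, wt1 g w := by
  have h1 : (univ.filter fun w : Fin 1 → ZMod m => tl w = v) = univ := by
    ext w; simp [Subsingleton.elim (tl w) v]
  have h2 : (univ.filter fun w : Fin 1 → ZMod m => ini w = v) = univ := by
    ext w; simp [Subsingleton.elim (ini w) v]
  rw [h1, h2]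

lemma wt1_tot (g : ZMod m → ℕ) : ∑ w, wt1 g w = ∑ x, g x := by
  exact Fintype.sum_equiv (Equiv.funUnique (Fin 1) (ZMod m)) _ _ (fun w => rfl)

lemma one_ne (hm : 3 ≤ m) : (1 : ZMod m) ≠ 0 := by
  intro h
  have h2 : ((1 : ℕ) : ZMod m) = 0 := by simpa using h
  rw [ZMod.natCast_eq_zero_iff] at h2
  have := Nat.le_of_dvd one_pos h2
  omega

lemma two_ne (hm : 3 ≤ m) : (2 : ZMod m) ≠ 0 := by
  intro h
  have h2 : ((2 : ℕ) : ZMod m) = 0 := by simpa using h
  rw [ZMod.natCast_eq_zero_iff] at h2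
  have := Nat.le_of_dvd two_pos h2
  omega

lemma R2_wt1 {g : ZMod m → ℕ} {b : ZMod m} (hb : b ≠ 0) (hg : 1 ≤ g b) (v : Fin 0 → ZMod m)
    (s L : ZMod m) : R2 (wt1 g) (v, s, L) (v, s + b, L + 1) :=
  ⟨fun _ => b, hg, fun h => hb (congrFun h 0), Subsingleton.elim _ _, Subsingleton.elim _ _,
    rfl, rfl⟩

theorem good_one (hm : 3 ≤ m) {k q : ℕ} (hk : 1 ≤ k) (h1 : 3 ≤ q) (h2 : q ≤ k * m) :
    ∃ G : (Fin 1 → ZMod m) → ℕ, Good k q G := by
  classical
  obtain ⟨g, hg1, hg2, hg3⟩ := exists_mult ({0, 1, 2} : Finset (ZMod m)) hk q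
    ((Finset.card_le_three).trans h1) (by rwa [ZMod.card])
  have hg0 : 1 ≤ g 0 := hg2 0 (by simp)
  have hg1' : 1 ≤ g 1 := hg2 1 (by simp)
  have hg2' : 1 ≤ g 2 := hg2 2 (by simp)
  refine ⟨wt1 g, fun w => hg1 _, wt1_bal g, by rw [wt1_tot, hg3], hg0, ?_, ?_⟩
  · exact ⟨fun _ => 1, hg1', fun h => one_ne hm (congrFun h 0), Subsingleton.elim _ _⟩
  · intro v v' _ _ x x'
    have hv : v = v' := Subsingleton.elim _ _
    subst hv
    have A1 : ∀ s L : ZMod m, EqvGen (R2 (wt1 g)) (v, s, L) (v, s + 1, L) := by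
      intro s L
      have e1 := R2_wt1 (one_ne hm) hg1' v s (L - 1)
      have e1' := R2_wt1 (one_ne hm) hg1' v (s - 1) (L - 1)
      have e2 := R2_wt1 (two_ne hm) hg2' v (s - 1) (L - 1)
      have r1 : s - 1 + 2 = s + 1 := by ring
      rw [sub_add_cancel, r1] at e2
      rw [sub_add_cancel, sub_add_cancel] at e1'
      exact ((EqvGen.rel _ _ e1').symm).trans _ _ _ (EqvGen.rel _ _ e2)
    refine base_conn A1 (fun s L => ?_) x x'
    have e1 := R2_wt1 (one_ne hm) hg1' v s L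
    exact (EqvGen.rel _ _ e1).trans _ _ _ (A1 s (L + 1)).symm

/-- windows of length two -/
theorem seq_two {k q : ℕ} (hk : 1 ≤ k) (h1 : 1 ≤ q) (h2 : q ≤ k * m) :
    ∃ a : ZMod (m * q) → ZMod m,
      (∀ w : Fin 2 → ZMod m,
        {i : ZMod (m * q) | ∀ j : Fin 2, a (i + ((j : ℕ) : ZMod (m * q))) = w j}.ncard ≤ k) ∧
      ∀ x, {i : ZMod (m * q) | a i = x}.ncard = q := by
  classical
  obtain ⟨g, hg1, hg2, hg3⟩ := exists_mult ({1} : Finset (ZMod m)) hk q
    (by simpa using h1) (by rwa [ZMod.card])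
  have hg1' : 1 ≤ g 1 := hg2 1 (by simp)
  refine final h1 (wt1 g) (fun w => hg1 _) (wt1_bal g) (by rw [wt1_tot, hg3]) ?_
  intro w w' _ _
  have key : ∀ s : ZMod m, EqvGen (fun v v' => ∃ u : Fin 2 → ZMod m, 0 < wt1 g (D u) ∧ ini u = v ∧
      tl u = v') (cst 1 s) (cst 1 (s + 1)) := by
    intro s
    refine EqvGen.rel _ _ ⟨mk s (cst 1 1), ?_, ?_, ?_⟩
    · rw [D_mk]; exact hg1'
    · rw [ini_mk]; funext i; rw [Fin.eq_zero i]; rfl
    · rw [tl_mk]; funext i; rw [Fin.eq_zero i]; rfl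
  have key2 : ∀ (n : ℕ) (s : ZMod m), EqvGen (fun v v' => ∃ u : Fin 2 → ZMod m,
      0 < wt1 g (D u) ∧ ini u = v ∧ tl u = v') (cst 1 s) (cst 1 (s + n)) := by
    intro n
    induction n with
    | zero => intro s; rw [Nat.cast_zero, add_zero]; exact EqvGen.refl _
    | succ n ih =>
      intro s
      have := (ih s).trans _ _ _ (key _)
      rw [add_assoc] at this
      rw [Nat.cast_succ]; exact this
  have h3 : ini w = cst 1 (w 0) := by funext i; rw [Fin.eq_zero i]; rfl
  have h4 : ini w' = cst 1 (w' 0) := by funext i; rw [Fin.eq_zero i]; rfl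
  have := key2 (w' 0 - w 0).val (w 0)
  rw [ZMod.natCast_zmod_val, add_sub_cancel] at this
  rw [h3, h4]
  exact this

/-- windows of length one -/
theorem seq_one {k q : ℕ} (h1 : 1 ≤ q) (h2 : q ≤ k) :
    ∃ a : ZMod (m * q) → ZMod m,
      (∀ w : Fin 1 → ZMod m,
        {i : ZMod (m * q) | ∀ j : Fin 1, a (i + ((j : ℕ) : ZMod (m * q))) = w j}.ncard ≤ k) ∧
      ∀ x, {i : ZMod (m * q) | a i = x}.ncard = q := by
  have hm : 0 < m := Nat.pos_of_ne_zero (NeZero.ne m)
  refine exists_seq (wt1 fun _ => q) (fun w => h2) (wt1_bal _) ?_ ?_ (Nat.mul_pos hm h1) ?_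
  · intro w w' _ _
    rw [Subsingleton.elim (ini w) (ini w')]
    exact EqvGen.refl _
  · rw [wt1_tot]; simp
  · intro x
    have : (univ.filter fun w : Fin 1 → ZMod m => w 0 = x) = {fun _ => x} := by
      ext w
      simp only [Finset.mem_filter, Finset.mem_univ, true_and, Finset.mem_singleton]
      constructor
      · intro h; funext i; rw [Fin.eq_zero i]; exact h
      · intro h; rw [h]
    rw [this]; simp [wt1]

end Run7.h513.BGB
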