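import Mathlib

/-!
# Eulerian circuits of directed multigraphs, as cyclic permutations of the edges
-/

namespace Run7.h513.BGB

open Equiv Equiv.Perm Relation

section euler

variable {E V : Type*} [Fintype E] [DecidableEq E] (src tgt : E → V)

omit [DecidableEq E] in
lemma exists_follow [DecidableEq V]
    (hbal : ∀ v, Fintype.card {e // tgt e = v} = Fintype.card {e // src e = v}) :
    ∃ σ : Perm E, ∀ e, tgt e = src (σ e) := by
  classical
  let F : ∀ v, {e // tgt e = v} ≃ {e // src e = v} := fun v => Fintype.equivOfCardEq (hbal v)
  let σ : E ≃ E := (Equiv.sigmaFiberEquiv tgt).symm.trans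
    ((Equiv.sigmaCongrRight F).trans (Equiv.sigmaFiberEquiv src))
  refine ⟨σ, fun e => ?_⟩
  have h := (F (tgt e) ⟨e, rfl⟩).2
  exact h.symm

lemma merge {σ : Perm E} {e f : E} (hne : ¬ SameCycle σ e f) (x : E) (hx : SameCycle σ e x) :
    SameCycle (σ * swap e f) f x := by
  have key : ∀ i : ℕ, SameCycle (σ * swap e f) f ((σ ^ (i + 1)) e) := by
    intro i
    induction i with
    | zero =>
      have h1 : (σ * swap e f) f = σ e := by simp
      have h2 : SameCycle (σ * swap e f) f ((σ * swap e f) f) := by
        rw [sameCycle_apply_right]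
      rw [h1] at h2
      simpa using h2
    | succ i ih =>
      have h0 : (σ ^ (i + 1 + 1)) e = σ ((σ ^ (i + 1)) e) := by
        rw [pow_succ' σ (i + 1)]; rfl
      rw [h0]
      set y := (σ ^ (i + 1)) e with hy
      by_cases h : y = e
      · rw [h]
        have h1 : (σ * swap e f) f = σ e := by simp
        have h2 : SameCycle (σ * swap e f) f ((σ * swap e f) f) := by
          rw [sameCycle_apply_right]
        rwa [h1] at h2
      · have hf : y ≠ f := by
          intro hf
          apply hne
          rw [← hf, hy]
          exact ⟨((i + 1 : ℕ) : ℤ), by rw [zpow_natCast]⟩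
        have h1 : (σ * swap e f) y = σ y := by
          rw [Perm.mul_apply, swap_apply_of_ne_of_ne h hf]
        rw [← h1, sameCycle_apply_right]
        exact ih
  obtain ⟨i, hi⟩ := hx.exists_pow_eq'
  obtain ⟨hi1, hi2⟩ := hi
  rcases Nat.eq_zero_or_pos i with h0 | h0
  · subst h0
    -- `x = e`; use the order of `σ`
    have hxe : x = e := by simpa using hi2.symm
    have ho : 0 < orderOf σ := orderOf_pos σ
    have := key (orderOf σ - 1)
    rw [Nat.sub_add_cancel ho, pow_orderOf_eq_one] at this
    rw [hxe]
    simpa using this
  · have := key (i - 1)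
    rw [Nat.sub_add_cancel h0, hi2] at this
    exact this

theorem euler [DecidableEq V]
    (hbal : ∀ v, Fintype.card {e // tgt e = v} = Fintype.card {e // src e = v})
    (hconn : ∀ e f, EqvGen (fun v v' => ∃ g, src g = v ∧ tgt g = v') (src e) (src f)) :
    ∃ σ : Perm E, (∀ e, tgt e = src (σ e)) ∧ ∀ e f, SameCycle σ e f := by
  classical
  rcases isEmpty_or_nonempty E with hE | ⟨⟨e0⟩⟩
  · exact ⟨1, fun e => (hE.false e).elim, fun e => (hE.false e).elim⟩
  let P : Perm E → ℕ := fun σ => (Finset.univ.filter fun x => SameCycle σ e0 x).card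
  let A : Finset (Perm E) := Finset.univ.filter fun σ => ∀ e, tgt e = src (σ e)
  have hA : A.Nonempty := by
    obtain ⟨σ, hσ⟩ := exists_follow src tgt hbal
    exact ⟨σ, by simp [A, hσ]⟩
  obtain ⟨σ, hσA, hmax⟩ := A.exists_max_image P hA
  have hσ : ∀ e, tgt e = src (σ e) := by simpa [A] using hσA
  have hall : ∀ x, SameCycle σ e0 x := by
    by_contra hcon
    push Not at hcon
    obtain ⟨f0, hf0⟩ := hcon
    -- find `e` in the orbit and `f` outside with the same target
    have hex : ∃ e f, SameCycle σ e0 e ∧ ¬ SameCycle σ e0 f ∧ tgt e = tgt f := by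
      by_contra hno
      push Not at hno
      -- vertices of the orbit
      let W : V → Prop := fun v => ∃ e, SameCycle σ e0 e ∧ src e = v
      have h1 : ∀ g, W (tgt g) → SameCycle σ e0 g := by
        rintro g ⟨e, he, hev⟩
        by_contra hg
        -- `e = σ e'` with `tgt e' = src e`
        have he' : SameCycle σ e0 (σ.symm e) := by
          rwa [sameCycle_symm_apply_right]
        have h2 := hno (σ.symm e) g he' hg
        apply h2
        rw [hσ (σ.symm e), Equiv.apply_symm_apply]
        exact hev
      have h3 : ∀ g, W (src g) → SameCycle σ e0 g := by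
        intro g hg
        have h4 : SameCycle σ e0 (σ.symm g) := by
          apply h1
          rw [hσ (σ.symm g), Equiv.apply_symm_apply]
          exact hg
        rwa [sameCycle_symm_apply_right] at h4
      have hcl : ∀ v v', EqvGen (fun v v' => ∃ g, src g = v ∧ tgt g = v') v v' → (W v ↔ W v') := by
        intro v v' h
        induction h with
        | rel a b hab =>
          obtain ⟨g, rfl, rfl⟩ := hab
          constructor
          · intro hg
            have h5 := h3 g hg
            exact ⟨σ g, by rwa [sameCycle_apply_right], (hσ g).symm⟩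
          · intro hg
            exact ⟨g, h1 g hg, rfl⟩
        | refl a => rfl
        | symm a b _ ih => exact ih.symm
        | trans a b c _ _ ih1 ih2 => exact ih1.trans ih2
      apply hf0
      apply h3
      rw [← hcl _ _ (hconn e0 f0)]
      exact ⟨e0, SameCycle.refl _ _, rfl⟩
    obtain ⟨e, f, he, hf, hef⟩ := hex
    have hne : ¬ SameCycle σ e f := fun h => hf (he.trans h)
    let τ : Perm E := σ * swap e f
    have hτ : ∀ g, tgt g = src (τ g) := by
      intro g
      by_cases h1 : g = e
      · subst h1
        simp only [τ, Perm.mul_apply, swap_apply_left]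
        rw [hef, hσ f]
      · by_cases h2 : g = f
        · subst h2
          simp only [τ, Perm.mul_apply, swap_apply_right]
          rw [← hef, hσ e]
        · simp only [τ, Perm.mul_apply, swap_apply_of_ne_of_ne h1 h2]
          exact hσ g
    have hτA : τ ∈ A := by simp [A, hτ]
    have hle := hmax τ hτA
    have hlt : P σ < P τ := by
      apply Finset.card_lt_card
      rw [Finset.ssubset_iff_of_subset]
      · refine ⟨f, ?_, ?_⟩
        · rw [Finset.mem_filter]
          refine ⟨Finset.mem_univ _, ?_⟩
          exact (merge hne e0 he.symm).symm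
        · rw [Finset.mem_filter]
          exact fun h => hf h.2
      · intro x hx
        rw [Finset.mem_filter] at hx ⊢
        refine ⟨Finset.mem_univ _, ?_⟩
        exact (merge hne e0 he.symm).symm.trans (merge hne x (he.symm.trans hx.2))
    omega
  exact ⟨σ, hσ, fun e f => (hall e).symm.trans (hall f)⟩

end euler

end Run7.h513.BGB
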