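import Pool.Agent.Run7.h513.BGB.Seq

/-!
# Lifting weights on words along the difference map
-/

namespace Run7.h513.BGB

open Relation Finset

variable {m : ℕ} [NeZero m] {t : ℕ}

/-- the difference word -/
def D (w : Fin (t + 1) → ZMod m) : Fin t → ZMod m := fun i => w i.succ - w i.castSucc

/-- the word with first letter `s` and difference word `u` -/
def mk (s : ZMod m) (u : Fin t → ZMod m) : Fin (t + 1) → ZMod m :=
  fun i => Fin.induction (motive := fun _ => ZMod m) s (fun j x => x + u j) i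

omit [NeZero m] in
lemma mk_zero (s : ZMod m) (u : Fin t → ZMod m) : mk s u 0 = s := rfl

omit [NeZero m] in
lemma mk_succ (s : ZMod m) (u : Fin t → ZMod m) (j : Fin t) :
    mk s u j.succ = mk s u j.castSucc + u j := rfl

omit [NeZero m] in
lemma D_mk (s : ZMod m) (u : Fin t → ZMod m) : D (mk s u) = u := by
  funext j
  simp [D, mk_succ]

omit [NeZero m] in
lemma ext' {w w' : Fin (t + 1) → ZMod m} (h0 : w 0 = w' 0) (h : D w = D w') : w = w' := by
  funext i
  induction i using Fin.induction with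
  | zero => exact h0
  | succ j ih =>
    have := congrFun h j
    simp only [D] at this
    rw [ih] at this
    exact sub_left_inj.mp this

omit [NeZero m] in
lemma mk_eta (w : Fin (t + 1) → ZMod m) : mk (w 0) (D w) = w :=
  ext' (mk_zero _ _) (D_mk _ _)

omit [NeZero m] in
lemma D_ini (w : Fin (t + 2) → ZMod m) : D (ini w) = ini (D w) := by
  funext i
  simp only [D, ini, Fin.succ_castSucc]

omit [NeZero m] in
lemma D_tl (w : Fin (t + 2) → ZMod m) : D (tl w) = tl (D w) := by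
  funext i
  simp only [D, tl, Fin.succ_castSucc]

omit [NeZero m] in
lemma ini_mk (s : ZMod m) (u : Fin (t + 1) → ZMod m) : ini (mk s u) = mk s (ini u) := by
  apply ext'
  · rfl
  · rw [D_ini, D_mk, D_mk]

omit [NeZero m] in
lemma tl_mk (s : ZMod m) (u : Fin (t + 1) → ZMod m) : tl (mk s u) = mk (s + u 0) (tl u) := by
  apply ext'
  · rfl
  · rw [D_tl, D_mk, D_mk]

omit [NeZero m] in
lemma D_zero : D (0 : Fin (t + 1) → ZMod m) = 0 := by
  funext i; simp [D]

lemma sum_ini (G : (Fin (t + 1) → ZMod m) → ℕ) (v : Fin (t + 1) → ZMod m) :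
    ∑ w with ini w = v, G (D w) = ∑ u with ini u = D v, G u := by
  refine Finset.sum_nbij' (fun w => D w) (fun u => mk (v 0) u) ?_ ?_ ?_ ?_ ?_
  · intro w hw
    simp only [Finset.mem_filter, Finset.mem_univ, true_and] at hw ⊢
    rw [← hw, D_ini]
  · intro u hu
    simp only [Finset.mem_filter, Finset.mem_univ, true_and] at hu ⊢
    rw [ini_mk, hu, mk_eta]
  · intro w hw
    simp only [Finset.mem_filter, Finset.mem_univ, true_and] at hw
    have : v 0 = w 0 := by rw [← hw]; rfl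
    rw [this, mk_eta]
  · intro u _
    rw [D_mk]
  · intro w _; rfl

lemma sum_tl (G : (Fin (t + 1) → ZMod m) → ℕ) (v : Fin (t + 1) → ZMod m) :
    ∑ w with tl w = v, G (D w) = ∑ u with tl u = D v, G u := by
  refine Finset.sum_nbij' (fun w => D w) (fun u => mk (v 0 - u 0) u) ?_ ?_ ?_ ?_ ?_
  · intro w hw
    simp only [Finset.mem_filter, Finset.mem_univ, true_and] at hw ⊢
    rw [← hw, D_tl]
  · intro u hu
    simp only [Finset.mem_filter, Finset.mem_univ, true_and] at hu ⊢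
    rw [tl_mk, hu, sub_add_cancel, mk_eta]
  · intro w hw
    simp only [Finset.mem_filter, Finset.mem_univ, true_and] at hw
    have h1 : v 0 = w 1 := by rw [← hw]; rfl
    have h2 : v 0 - (D w) 0 = w 0 := by
      rw [h1]; simp [D]
    rw [h2, mk_eta]
  · intro u _
    rw [D_mk]
  · intro w _; rfl

lemma sum_first (G : (Fin t → ZMod m) → ℕ) (x : ZMod m) :
    ∑ w : Fin (t + 1) → ZMod m with w 0 = x, G (D w) = ∑ u, G u := by
  refine Finset.sum_nbij' (fun w => D w) (fun u => mk x u) ?_ ?_ ?_ ?_ ?_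
  · intro w hw
    simp
  · intro u hu
    simp [mk_zero]
  · intro w hw
    simp only [Finset.mem_filter, Finset.mem_univ, true_and] at hw
    rw [← hw, mk_eta]
  · intro u _
    rw [D_mk]
  · intro w _; rfl

lemma sum_all (G : (Fin t → ZMod m) → ℕ) :
    ∑ w : Fin (t + 1) → ZMod m, G (D w) = m * ∑ u, G u := by
  have h : ∑ w : Fin (t + 1) → ZMod m, G (D w) =
      ∑ x : ZMod m, ∑ w : Fin (t + 1) → ZMod m with w 0 = x, G (D w) := by
    rw [Finset.sum_fiberwise]
  rw [h]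
  simp only [sum_first]
  simp [ZMod.card]

/-! ### the covering relation -/

/-- one step in the cover of the graph of `G` that records the sum and the number of letters -/
def R2 (G : (Fin (t + 1) → ZMod m) → ℕ) (a b : (Fin t → ZMod m) × ZMod m × ZMod m) : Prop :=
  ∃ u, 0 < G u ∧ u ≠ 0 ∧ ini u = a.1 ∧ tl u = b.1 ∧ b.2.1 = a.2.1 + u 0 ∧ b.2.2 = a.2.2 + 1

/-- vertices met by a word of positive weight other than the zero word -/
def Act (G : (Fin (t + 1) → ZMod m) → ℕ) (v : Fin t → ZMod m) : Prop :=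
  ∃ u, 0 < G u ∧ u ≠ 0 ∧ ini u = v

/-- The inductive property. -/
structure Good (k q : ℕ) (G : (Fin (t + 1) → ZMod m) → ℕ) : Prop where
  le : ∀ w, G w ≤ k
  bal : ∀ v : Fin t → ZMod m, ∑ w with tl w = v, G w = ∑ w with ini w = v, G w
  tot : ∑ w, G w = q
  zero : 1 ≤ G 0
  act : Act G 0
  conn : ∀ v v', Act G v → Act G v' → ∀ x x' : ZMod m × ZMod m, EqvGen (R2 G) (v, x) (v', x')

/-- the step relation with a further coordinate -/
def S (G : (Fin (t + 1) → ZMod m) → ℕ)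
    (a b : ((Fin t → ZMod m) × ZMod m × ZMod m) × ZMod m) : Prop :=
  ∃ u, 0 < G u ∧ u ≠ 0 ∧ ini u = a.1.1 ∧ tl u = b.1.1 ∧ b.1.2.1 = a.1.2.1 + u 0 ∧
    b.1.2.2 = a.1.2.2 + 1 ∧ b.2 = a.2 + a.1.2.1

section conn

variable {G : (Fin (t + 1) → ZMod m) → ℕ}

omit [NeZero m] in
lemma S_of_R2 {a b} (h : EqvGen (R2 G) a b) : ∃ ξ : ZMod m, ∀ X, EqvGen (S G) (a, X) (b, X + ξ) := by
  induction h with
  | rel a b hab =>
    obtain ⟨u, h1, h2, h3, h4, h5, h6⟩ := hab
    exact ⟨a.2.1, fun X => EqvGen.rel _ _ ⟨u, h1, h2, h3, h4, h5, h6, rfl⟩⟩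
  | refl a => exact ⟨0, fun X => by rw [add_zero]; exact EqvGen.refl _⟩
  | symm a b _ ih =>
    obtain ⟨ξ, h⟩ := ih
    refine ⟨-ξ, fun X => EqvGen.symm _ _ ?_⟩
    have := h (X + -ξ)
    rwa [neg_add_cancel_right] at this
  | trans a b c _ _ ih1 ih2 =>
    obtain ⟨ξ, h1⟩ := ih1
    obtain ⟨η, h2⟩ := ih2
    refine ⟨ξ + η, fun X => EqvGen.trans _ _ _ (h1 X) ?_⟩
    rw [← add_assoc]
    exact h2 _

omit [NeZero m] in
/-- translation of the two last coordinates -/
lemma S_trans (ℓ x : ZMod m) {a b : ((Fin t → ZMod m) × ZMod m × ZMod m) × ZMod m}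
    (h : EqvGen (S G) a b) :
    EqvGen (S G) ((a.1.1, a.1.2.1, a.1.2.2 + ℓ), a.2 + x) ((b.1.1, b.1.2.1, b.1.2.2 + ℓ), b.2 + x) := by
  induction h with
  | rel a b hab =>
    obtain ⟨u, h1, h2, h3, h4, h5, h6, h7⟩ := hab
    refine EqvGen.rel _ _ ⟨u, h1, h2, h3, h4, h5, ?_, ?_⟩
    · simp only; rw [h6]; ring
    · simp only; rw [h7]; ring
  | refl a => exact EqvGen.refl _
  | symm a b _ ih => exact ih.symm
  | trans a b c _ _ ih1 ih2 => exact ih1.trans _ _ _ ih2

omit [NeZero m] in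
/-- the shear -/
lemma S_shear (c : ZMod m) {a b : ((Fin t → ZMod m) × ZMod m × ZMod m) × ZMod m}
    (h : EqvGen (S G) a b) :
    EqvGen (S G) ((a.1.1, a.1.2.1 + c, a.1.2.2), a.2 + c * a.1.2.2)
      ((b.1.1, b.1.2.1 + c, b.1.2.2), b.2 + c * b.1.2.2) := by
  induction h with
  | rel a b hab =>
    obtain ⟨u, h1, h2, h3, h4, h5, h6, h7⟩ := hab
    refine EqvGen.rel _ _ ⟨u, h1, h2, h3, h4, ?_, h6, ?_⟩
    · simp only; rw [h5]; ring
    · simp only; rw [h7, h6]; ring
  | refl a => exact EqvGen.refl _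
  | symm a b _ ih => exact ih.symm
  | trans a b c _ _ ih1 ih2 => exact ih1.trans _ _ _ ih2

lemma S_conn (hconn : ∀ v v', Act G v → Act G v' → ∀ x x' : ZMod m × ZMod m,
      EqvGen (R2 G) (v, x) (v', x')) {v v' : Fin t → ZMod m} (hv : Act G v) (hv' : Act G v')
    (x x' : ZMod m × ZMod m) (X X' : ZMod m) : EqvGen (S G) ((v, x), X) ((v', x'), X') := by
  -- `X ↦ X + 1` at the point `(v, 1, 1)`
  obtain ⟨ξ, hξ⟩ := S_of_R2 (hconn v v hv hv ((0 : ZMod m), (0 : ZMod m)) (0, 1))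
  obtain ⟨η, hη⟩ := S_of_R2 (hconn v v hv hv ((0 : ZMod m), (0 : ZMod m)) (1, 0))
  have h1 : ∀ Y : ZMod m, EqvGen (S G) ((v, 1, 0), Y) ((v, 1, 1), Y + ξ + 1) := by
    intro Y
    have := S_shear 1 (hξ Y)
    simpa using this
  have h2 : ∀ Y : ZMod m, EqvGen (S G) ((v, 0, 1), Y) ((v, 1, 1), Y + η) := by
    intro Y
    have := S_trans 1 0 (hη Y)
    simpa using this
  have h3 : ∀ Y : ZMod m, EqvGen (S G) ((v, 1, 1), Y) ((v, 1, 1), Y + 1) := by
    intro Y
    -- `Y = X + ξ + η`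
    have e1 := (hξ (Y - ξ - η)).trans _ _ _ (h2 _)
    have e2 := (hη (Y - ξ - η)).trans _ _ _ (h1 _)
    have e3 := e1.symm.trans _ _ _ e2
    have r1 : Y - ξ - η + ξ + η = Y := by ring
    have r2 : Y - ξ - η + η + ξ + 1 = Y + 1 := by ring
    rw [r1, r2] at e3
    exact e3
  have h4 : ∀ (n : ℕ) (Y : ZMod m), EqvGen (S G) ((v, 1, 1), Y) ((v, 1, 1), Y + n) := by
    intro n
    induction n with
    | zero => intro Y; rw [Nat.cast_zero, add_zero]; exact EqvGen.refl _
    | succ n ih =>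
      intro Y
      have := (ih Y).trans _ _ _ (h3 _)
      rw [add_assoc] at this
      rw [Nat.cast_succ]
      exact this
  have h5 : ∀ Y Z : ZMod m, EqvGen (S G) ((v, 1, 1), Y) ((v, 1, 1), Z) := by
    intro Y Z
    have := h4 (Z - Y).val Y
    rw [ZMod.natCast_zmod_val, add_sub_cancel] at this
    exact this
  obtain ⟨a, ha⟩ := S_of_R2 (hconn v v hv hv x (1, 1))
  obtain ⟨b, hb⟩ := S_of_R2 (hconn v' v hv' hv x' (1, 1))
  exact ((ha X).trans _ _ _ (h5 _ _)).trans _ _ _ (hb X').symm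

end conn

end Run7.h513.BGB
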