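import Pool.Agent.Run7.h513.BGB.Two

/-!
# Balanced generalized de Bruijn sequences over `ZMod m`
-/

namespace Run7.h513.BGB

open Relation Finset

variable {m : ℕ} [NeZero m]

theorem good_two (hm : 3 ≤ m) {q : ℕ} (h1 : m < q) (h2 : q ≤ 2 * m) :
    ∃ G : (Fin 2 → ZMod m) → ℕ, Good 1 q G := by
  rcases Nat.lt_or_ge q 6 with h | h
  · have hcases : (m = 3 ∧ q = 4) ∨ (m = 3 ∧ q = 5) ∨ (m = 4 ∧ q = 5) := by omega
    rcases hcases with ⟨rfl, rfl⟩ | ⟨rfl, rfl⟩ | ⟨rfl, rfl⟩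
    · exact ⟨_, good_34⟩
    · exact ⟨_, good_35⟩
    · exact ⟨_, good_45⟩
  · have : NeZero q := ⟨by omega⟩
    exact ⟨_, good_half hm h h2⟩

/-- ceiling of the quotient -/
lemma exists_ceil {m : ℕ} (hm : 0 < m) (q : ℕ) : ∃ q', q ≤ m * q' ∧ m * q' < q + m := by
  refine ⟨(q + m - 1) / m, ?_, ?_⟩
  · have := Nat.div_add_mod (q + m - 1) m
    have := Nat.mod_lt (q + m - 1) hm
    omega
  · have := Nat.mul_div_le (q + m - 1) m
    omega

theorem good_all (hm : 3 ≤ m) {k : ℕ} (hk : 1 ≤ k) (t : ℕ) :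
    ∀ q, k * m ^ (t + 1) < q → q ≤ k * m ^ (t + 2) →
      ∃ G : (Fin (t + 2) → ZMod m) → ℕ, Good k q G := by
  induction t with
  | zero =>
    intro q h1 h2
    obtain ⟨q', h3, h4⟩ := exists_ceil (m := m) (by omega) q
    rw [zero_add, pow_one] at h1
    rw [zero_add, pow_two, ← mul_assoc] at h2
    have h5 : q' ≤ k * m := by
      by_contra hcon
      push Not at hcon
      have : m * (k * m + 1) ≤ m * q' := Nat.mul_le_mul_left m hcon
      nlinarith
    rcases Nat.lt_or_ge q' 3 with h | h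
    · have h6 : m * q' ≤ m * 2 := Nat.mul_le_mul_left m (by omega)
      have hk1 : k = 1 := by
        by_contra hcon
        have : 2 ≤ k := by omega
        have : 2 * m ≤ k * m := Nat.mul_le_mul_right m this
        omega
      subst hk1
      exact good_two hm (by omega) (by omega)
    · obtain ⟨G, hG⟩ := good_one hm hk h h5
      exact step hG h3 h4
  | succ t ih =>
    intro q h1 h2
    obtain ⟨q', h3, h4⟩ := exists_ceil (m := m) (by omega) q
    have e1 : k * m ^ (t + 1 + 1) = m * (k * m ^ (t + 1)) := by rw [pow_succ]; ring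
    have e2 : k * m ^ (t + 1 + 2) = m * (k * m ^ (t + 2)) := by
      rw [show t + 1 + 2 = (t + 2) + 1 by ring, pow_succ]; ring
    rw [e1] at h1
    rw [e2] at h2
    have h5 : k * m ^ (t + 1) < q' := by
      by_contra hcon
      push Not at hcon
      have := Nat.mul_le_mul_left m hcon
      omega
    have h6 : q' ≤ k * m ^ (t + 2) := by
      by_contra hcon
      push Not at hcon
      have : m * (k * m ^ (t + 2) + 1) ≤ m * q' := Nat.mul_le_mul_left m hcon
      rw [Nat.mul_add, mul_one] at this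
      omega
    obtain ⟨G, hG⟩ := ih q' h5 h6
    exact step hG h3 h4

/-- from shorter to longer windows -/
lemma extend {n : ℕ} [NeZero n] {α : Type*} {a b k : ℕ} (hab : a ≤ b) (x : ZMod n → α)
    (h : ∀ w : Fin a → α, {i : ZMod n | ∀ j : Fin a, x (i + ((j : ℕ) : ZMod n)) = w j}.ncard ≤ k)
    (w : Fin b → α) : {i : ZMod n | ∀ j : Fin b, x (i + ((j : ℕ) : ZMod n)) = w j}.ncard ≤ k := by
  refine (Set.ncard_le_ncard ?_ (Set.toFinite _)).trans (h fun j => w (Fin.castLE hab j))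
  intro i hi j
  exact hi (Fin.castLE hab j)

theorem seq_all (hm : 3 ≤ m) {k q : ℕ} (hk : 1 ≤ k) (hq : 1 ≤ q) (t : ℕ) (h : q ≤ k * m ^ t) :
    ∃ a : ZMod (m * q) → ZMod m,
      (∀ w : Fin (t + 1) → ZMod m,
        {i : ZMod (m * q) | ∀ j : Fin (t + 1), a (i + ((j : ℕ) : ZMod (m * q))) = w j}.ncard ≤ k) ∧
      ∀ x, {i : ZMod (m * q) | a i = x}.ncard = q := by
  classical
  have : NeZero (m * q) := ⟨(Nat.mul_pos (by omega) (by omega)).ne'⟩
  have hex : ∃ s, q ≤ k * m ^ s := ⟨t, h⟩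
  obtain ⟨s, hs1, hs2, hs3⟩ : ∃ s, q ≤ k * m ^ s ∧ s ≤ t ∧ ∀ s' < s, k * m ^ s' < q :=
    ⟨Nat.find hex, Nat.find_spec hex, Nat.find_min' hex h, fun s' hs' => by
      have := Nat.find_min hex hs'
      omega⟩
  match s, hs1, hs2, hs3 with
  | 0, hs1, hs2, _ =>
    obtain ⟨a, h1, h2⟩ := seq_one (m := m) hq (by simpa using hs1)
    exact ⟨a, extend (by omega) a h1, h2⟩
  | 1, hs1, hs2, _ =>
    obtain ⟨a, h1, h2⟩ := seq_two (m := m) hk hq (by simpa using hs1)
    exact ⟨a, extend (by omega) a h1, h2⟩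
  | s + 2, hs1, hs2, hs3 =>
    obtain ⟨G, hG⟩ := good_all hm hk s q (hs3 (s + 1) (by omega)) hs1
    obtain ⟨a, h1, h2⟩ := final hq G hG.le hG.bal hG.tot (vc_of_good hG)
    exact ⟨a, extend (by omega) a h1, h2⟩

end Run7.h513.BGB
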