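import Pool.Agent.Run7.h513.BGB.Euler

/-!
# From balanced connected weights on words to cyclic sequences
-/

namespace Run7.h513.BGB

open Equiv Equiv.Perm Relation Finset

/-- initial part of a word -/
def ini {α : Type*} {t : ℕ} (w : Fin (t + 1) → α) : Fin t → α := fun i => w i.castSucc

/-- final part of a word -/
def tl {α : Type*} {t : ℕ} (w : Fin (t + 1) → α) : Fin t → α := fun i => w i.succ

section cyc

variable {E : Type*} [Fintype E] [DecidableEq E] {σ : Perm E}

lemma isCycleOn_univ (hσ : ∀ e f, SameCycle σ e f) : σ.IsCycleOn (univ : Finset E) := by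
  refine ⟨?_, fun x _ y _ => hσ x y⟩
  simp

lemma pow_card (hσ : ∀ e f, SameCycle σ e f) (e : E) : (σ ^ (Fintype.card E)) e = e := by
  have := (isCycleOn_univ hσ).pow_card_apply (Finset.mem_univ e)
  simpa using this

/-- running through the cycle -/
def run (σ : Perm E) (e0 : E) {n : ℕ} (i : ZMod n) : E := (σ ^ i.val) e0

lemma run_add {n : ℕ} [NeZero n] (hn : Fintype.card E = n) (hσ : ∀ e f, SameCycle σ e f) (e0 : E)
    (i : ZMod n) (j : ℕ) : run σ e0 (i + (j : ZMod n)) = (σ ^ j) (run σ e0 i) := by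
  unfold run
  have h1 : (i + (j : ZMod n)).val = (i.val + j) % n := by
    rw [ZMod.val_add, ZMod.val_natCast, Nat.add_mod_mod]
  have h2 : ∀ a : ℕ, (σ ^ (a % n)) e0 = (σ ^ a) e0 := by
    intro a
    have h3 : ∀ b : ℕ, (σ ^ (n * b)) e0 = e0 := by
      intro b
      induction b with
      | zero => simp
      | succ b ih =>
        rw [Nat.mul_succ, pow_add, Perm.mul_apply]
        rw [← hn, pow_card hσ, hn, ih]
    conv_rhs => rw [← Nat.mod_add_div a n, pow_add, Perm.mul_apply, h3]
  rw [h1, h2, ← Perm.mul_apply, ← pow_add, Nat.add_comm]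

lemma run_bij {n : ℕ} [NeZero n] (hn : Fintype.card E = n) (hσ : ∀ e f, SameCycle σ e f) (e0 : E) :
    Function.Bijective (run σ e0 : ZMod n → E) := by
  rw [Fintype.bijective_iff_surjective_and_card]
  refine ⟨fun f => ?_, by rw [ZMod.card, hn]⟩
  obtain ⟨i, hi, hi2⟩ := (isCycleOn_univ hσ).exists_pow_eq (Finset.mem_univ e0) (Finset.mem_univ f)
  rw [Finset.card_univ, hn] at hi
  refine ⟨(i : ZMod n), ?_⟩
  unfold run
  rw [ZMod.val_natCast, Nat.mod_eq_of_lt hi, hi2]

end cyc

section seq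

variable {α : Type*} [Fintype α] [DecidableEq α] {t : ℕ}

lemma card_sigma_pred {W : Type*} [Fintype W] (G : W → ℕ) (p : W → Prop) [DecidablePred p] :
    Fintype.card {e : (Σ w : W, Fin (G w)) // p e.1} = ∑ w with p w, G w := by
  rw [Fintype.card_subtype]
  have : (univ.filter fun e : (Σ w : W, Fin (G w)) => p e.1) =
      (univ.filter p).sigma fun w => (univ : Finset (Fin (G w))) := by
    ext ⟨w, i⟩
    simp
  rw [this, Finset.card_sigma]
  simp

theorem exists_seq {k n q : ℕ} (G : (Fin (t + 1) → α) → ℕ) (hk : ∀ w, G w ≤ k)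
    (hbal : ∀ v : Fin t → α, ∑ w with tl w = v, G w = ∑ w with ini w = v, G w)
    (hconn : ∀ w w', 0 < G w → 0 < G w' →
      EqvGen (fun v v' => ∃ u, 0 < G u ∧ ini u = v ∧ tl u = v') (ini w) (ini w'))
    (hn : ∑ w, G w = n) (hpos : 0 < n) (hq : ∀ x, ∑ w with w 0 = x, G w = q) :
    ∃ a : ZMod n → α,
      (∀ w : Fin (t + 1) → α,
        {i : ZMod n | ∀ j : Fin (t + 1), a (i + ((j : ℕ) : ZMod n)) = w j}.ncard ≤ k) ∧
      ∀ x, {i : ZMod n | a i = x}.ncard = q := by
  classical
  have : NeZero n := ⟨hpos.ne'⟩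
  let E := Σ w : (Fin (t + 1) → α), Fin (G w)
  have hcardE : Fintype.card E = n := by
    simp only [E, Fintype.card_sigma, Fintype.card_fin]
    exact hn
  have hb : ∀ v, Fintype.card {e : E // tl e.1 = v} = Fintype.card {e : E // ini e.1 = v} := by
    intro v
    rw [card_sigma_pred G (fun w => tl w = v), card_sigma_pred G (fun w => ini w = v), hbal]
  have hc : ∀ e f : E, EqvGen (fun v v' => ∃ g : E, ini g.1 = v ∧ tl g.1 = v') (ini e.1)
      (ini f.1) := by
    intro e f
    have h := hconn e.1 f.1 (Fin.pos e.2) (Fin.pos f.2)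
    refine h.mono ?_
    rintro v v' ⟨u, hu, h1, h2⟩
    exact ⟨⟨u, ⟨0, hu⟩⟩, h1, h2⟩
  obtain ⟨σ, hσ1, hσ2⟩ := euler (fun e : E => ini e.1) (fun e : E => tl e.1) hb hc
  have hne : Nonempty E := by
    rw [← Fintype.card_pos_iff, hcardE]; exact hpos
  obtain ⟨e0⟩ := hne
  have hwin : ∀ (j : ℕ) (e : E) (i : Fin (t + 1)) (hij : (i : ℕ) + j < t + 1),
      ((σ ^ j) e).1 i = e.1 ⟨i + j, hij⟩ := by
    intro j
    induction j with
    | zero => intro e i hij; simp
    | succ j ih =>
      intro e i hij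
      have h1 : (σ ^ (j + 1)) e = (σ ^ j) (σ e) := by
        rw [pow_succ]; rfl
      rw [h1, ih (σ e) i (by omega)]
      have h2 := congrFun (hσ1 e) ⟨i + j, by omega⟩
      simp only [tl, ini] at h2
      have h3 : (⟨(i : ℕ) + j, by omega⟩ : Fin t).castSucc = ⟨(i : ℕ) + j, by omega⟩ := rfl
      have h4 : (⟨(i : ℕ) + j, by omega⟩ : Fin t).succ = ⟨(i : ℕ) + (j + 1), hij⟩ := rfl
      rw [h3, h4] at h2
      exact h2.symm
  let φ : ZMod n → E := run σ e0
  have hφb : Function.Bijective φ := run_bij hcardE hσ2 e0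
  have hcount : ∀ (p : (Fin (t + 1) → α) → Prop) [DecidablePred p],
      {i : ZMod n | p (φ i).1}.ncard = ∑ w with p w, G w := by
    intro p _
    rw [← card_sigma_pred G p, ← Nat.card_eq_fintype_card, ← Nat.card_coe_set_eq]
    apply Nat.card_congr
    exact (Equiv.ofBijective φ hφb).subtypeEquiv (fun i => Iff.rfl)
  refine ⟨fun i => (φ i).1 0, fun w => ?_, fun x => ?_⟩
  · have h1 : {i : ZMod n | ∀ j : Fin (t + 1), (φ (i + ((j : ℕ) : ZMod n))).1 0 = w j} =
        {i : ZMod n | (φ i).1 = w} := by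
      ext i
      simp only [Set.mem_ofPred_eq]
      have h2 : ∀ j : Fin (t + 1), (φ (i + ((j : ℕ) : ZMod n))).1 0 = (φ i).1 j := by
        intro j
        show (run σ e0 (i + ((j : ℕ) : ZMod n))).1 0 = (run σ e0 i).1 j
        rw [run_add hcardE hσ2]
        rw [hwin j _ 0 (by have := j.2; simpa using Nat.lt_succ_iff.mp this)]
        exact congrArg _ (Fin.ext (by simp))
      simp only [h2]
      constructor
      · intro h; funext j; exact h j
      · intro h j; rw [h]
    rw [h1, hcount (fun u => u = w)]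
    simp only [Finset.sum_filter, Finset.sum_ite_eq', Finset.mem_univ, if_true]
    exact hk w
  · have := hcount (fun u => u 0 = x)
    rw [hq] at this
    exact this

end seq

end Run7.h513.BGB
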