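import Pool.Agent.Run7.h513.BGB.Lift

/-!
# The inductive step: lift and remove some constant words
-/

namespace Run7.h513.BGB

open Relation Finset

variable {m : ℕ} [NeZero m] {t : ℕ}

/-- constant word -/
def cst (t : ℕ) {m : ℕ} (a : ZMod m) : Fin t → ZMod m := fun _ => a

omit [NeZero m] in
lemma D_cst (a : ZMod m) : D (cst (t + 1) a) = 0 := by
  funext i; simp [D, cst]

omit [NeZero m] in
lemma mk_zero_zero : mk (0 : ZMod m) (0 : Fin t → ZMod m) = 0 := by
  apply ext'
  · rfl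
  · rw [D_mk, D_zero]

omit [NeZero m] in
lemma eqvGen_map {α β : Type*} {r : α → α → Prop} {s : β → β → Prop} (f : α → β)
    (h : ∀ a b, r a b → s (f a) (f b)) {a b : α} (hab : EqvGen r a b) : EqvGen s (f a) (f b) := by
  induction hab with
  | rel a b hab => exact EqvGen.rel _ _ (h a b hab)
  | refl a => exact EqvGen.refl _
  | symm a b _ ih => exact ih.symm
  | trans a b c _ _ ih1 ih2 => exact ih1.trans _ _ _ ih2

theorem step {k q q' : ℕ} {G : (Fin (t + 1) → ZMod m) → ℕ} (hG : Good k q' G)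
    (h1 : q ≤ m * q') (h2 : m * q' < q + m) :
    ∃ G' : (Fin (t + 2) → ZMod m) → ℕ, Good k q G' := by
  classical
  have hm : 0 < m := Nat.pos_of_ne_zero (NeZero.ne m)
  obtain ⟨T, hT1, hT2⟩ := Finset.exists_subset_card_eq
    (s := (Finset.univ : Finset (ZMod m)).erase 0) (n := m * q' - q) (by
      rw [Finset.card_erase_of_mem (Finset.mem_univ _), Finset.card_univ, ZMod.card]; omega)
  have hT0 : (0 : ZMod m) ∉ T := fun h => by simpa using hT1 h
  let C : Finset (Fin (t + 2) → ZMod m) := T.image (cst (t + 2))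
  have hcinj : Function.Injective (cst (m := m) (t + 2)) := fun a b hab => congrFun hab 0
  have hC : ∀ w, w ∈ C ↔ ∃ a ∈ T, cst (t + 2) a = w := by
    intro w; simp [C]
  let δ : (Fin (t + 2) → ZMod m) → ℕ := fun w => if w ∈ C then 1 else 0
  have hCD : ∀ w ∈ C, D w = 0 := by
    intro w hw
    obtain ⟨a, _, rfl⟩ := (hC w).1 hw
    exact D_cst a
  have hδ : ∀ w, δ w ≤ G (D w) := by
    intro w
    by_cases h : w ∈ C
    · simp only [δ, if_pos h, hCD w h]; exact hG.zero
    · simp [δ, if_neg h]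
  let G' : (Fin (t + 2) → ZMod m) → ℕ := fun w => G (D w) - δ w
  have hG' : ∀ w, G' w + δ w = G (D w) := fun w => Nat.sub_add_cancel (hδ w)
  have hδ0 : ∀ w, D w ≠ 0 → δ w = 0 := by
    intro w hw
    have : w ∉ C := fun h => hw (hCD w h)
    simp [δ, if_neg this]
  have hG'D : ∀ w, D w ≠ 0 → G' w = G (D w) := by
    intro w hw
    simp [G', hδ0 w hw]
  have hact : ∀ v, Act G' v → Act G (D v) := by
    rintro v ⟨w, hw1, hw2, rfl⟩
    by_cases hD : D w = 0
    · rw [D_ini, hD]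
      exact hG.act
    · exact ⟨D w, by rwa [← hG'D w hD], hD, (D_ini w).symm⟩
  refine ⟨G', ?_, ?_, ?_, ?_, ?_, ?_⟩
  · intro w
    exact (Nat.sub_le _ _).trans (hG.le _)
  · intro v
    have e1 : ∑ w with tl w = v, (G' w + δ w) = ∑ w with ini w = v, (G' w + δ w) := by
      simp only [hG']
      rw [sum_tl, sum_ini, hG.bal]
    have e2 : ∑ w with tl w = v, δ w = ∑ w with ini w = v, δ w := by
      rw [Finset.sum_filter, Finset.sum_filter]
      apply Finset.sum_congr rfl
      intro w _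
      by_cases h : w ∈ C
      · obtain ⟨a, _, rfl⟩ := (hC w).1 h
        rfl
      · have : δ w = 0 := by simp [δ, if_neg h]
        rw [this]; simp
    rw [Finset.sum_add_distrib, Finset.sum_add_distrib, e2] at e1
    exact Nat.add_right_cancel e1
  · have e1 : ∑ w, (G' w + δ w) = m * q' := by
      simp only [hG']
      rw [sum_all, hG.tot]
    have e2 : ∑ w, δ w = m * q' - q := by
      simp only [δ]
      rw [Finset.sum_ite_mem, Finset.univ_inter, Finset.sum_const, smul_eq_mul, mul_one,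
        Finset.card_image_of_injective _ hcinj, hT2]
    rw [Finset.sum_add_distrib] at e1
    have e3 : (∑ w, G' w) + (m * q' - q) = m * q' := by rw [← e2]; exact e1
    change (∑ w, G' w) = q
    generalize (∑ w, G' w) = z at e3 ⊢
    omega
  · have : (0 : Fin (t + 2) → ZMod m) ∉ C := by
      intro h
      obtain ⟨a, ha, h⟩ := (hC _).1 h
      have : a = 0 := congrFun h 0
      rw [this] at ha
      exact hT0 ha
    have h0 : G' 0 = G 0 := by simp [G', δ, if_neg this, D_zero]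
    rw [h0]; exact hG.zero
  · obtain ⟨u, hu1, hu2, hu3⟩ := hG.act
    have hD : D (mk 0 u) ≠ 0 := by rwa [D_mk]
    refine ⟨mk 0 u, ?_, ?_, ?_⟩
    · rw [hG'D _ hD, D_mk]; exact hu1
    · intro h; apply hD; rw [h, D_zero]
    · rw [ini_mk, hu3, mk_zero_zero]
  · intro v v' hv hv' x x'
    have h := S_conn hG.conn (hact v hv) (hact v' hv') (v 0, x.2) (v' 0, x'.2) x.1 x'.1
    have h' := eqvGen_map (s := R2 G')
      (fun a : ((Fin t → ZMod m) × ZMod m × ZMod m) × ZMod m =>
        ((mk a.1.2.1 a.1.1, a.2, a.1.2.2) : (Fin (t + 1) → ZMod m) × ZMod m × ZMod m)) ?_ h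
    · simpa only [mk_eta] using h'
    · rintro a b ⟨u, hu1, hu2, hu3, hu4, hu5, hu6, hu7⟩
      have hD : D (mk a.1.2.1 u) ≠ 0 := by rwa [D_mk]
      refine ⟨mk a.1.2.1 u, ?_, ?_, ?_, ?_, ?_, hu6⟩
      · rw [hG'D _ hD, D_mk]; exact hu1
      · intro h; apply hD; rw [h, D_zero]
      · rw [ini_mk, hu3]
      · rw [tl_mk, hu4, hu5]
      · exact hu7

/-- the connectedness of the full lift -/
lemma vc_of_good {k q : ℕ} {G : (Fin (t + 1) → ZMod m) → ℕ} (hG : Good k q G) :
    ∀ w w' : Fin (t + 2) → ZMod m, 0 < G (D w) → 0 < G (D w') →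
      EqvGen (fun v v' => ∃ u, 0 < G (D u) ∧ ini u = v ∧ tl u = v') (ini w) (ini w') := by
  have hact : ∀ w : Fin (t + 2) → ZMod m, 0 < G (D w) → Act G (D (ini w)) := by
    intro w hw
    by_cases hD : D w = 0
    · rw [D_ini, hD]
      exact hG.act
    · exact ⟨D w, hw, hD, (D_ini w).symm⟩
  intro w w' hw hw'
  have h := hG.conn _ _ (hact w hw) (hact w' hw') ((ini w) 0, 0) ((ini w') 0, 0)
  have h' := eqvGen_map (s := (fun v v' => ∃ u, 0 < G (D u) ∧ ini u = v ∧ tl u = v'))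
      (fun a : (Fin t → ZMod m) × ZMod m × ZMod m =>
        (mk a.2.1 a.1 : (Fin (t + 1) → ZMod m))) ?_ h
  · simpa only [mk_eta] using h'
  · rintro a b ⟨u, hu1, hu2, hu3, hu4, hu5, hu6⟩
    refine ⟨mk a.2.1 u, ?_, ?_, ?_⟩
    · rw [D_mk]; exact hu1
    · rw [ini_mk, hu3]
    · rw [tl_mk, hu4, hu5]

theorem final {k q : ℕ} (hq : 0 < q) (G : (Fin (t + 1) → ZMod m) → ℕ) (hk : ∀ w, G w ≤ k)
    (hbal : ∀ v : Fin t → ZMod m, ∑ w with tl w = v, G w = ∑ w with ini w = v, G w)
    (htot : ∑ w, G w = q)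
    (hvc : ∀ w w' : Fin (t + 2) → ZMod m, 0 < G (D w) → 0 < G (D w') →
      EqvGen (fun v v' => ∃ u, 0 < G (D u) ∧ ini u = v ∧ tl u = v') (ini w) (ini w')) :
    ∃ a : ZMod (m * q) → ZMod m,
      (∀ w : Fin (t + 2) → ZMod m,
        {i : ZMod (m * q) | ∀ j : Fin (t + 2), a (i + ((j : ℕ) : ZMod (m * q))) = w j}.ncard ≤ k) ∧
      ∀ x, {i : ZMod (m * q) | a i = x}.ncard = q := by
  have hm : 0 < m := Nat.pos_of_ne_zero (NeZero.ne m)
  refine exists_seq (fun w : Fin (t + 2) → ZMod m => G (D w)) (fun w => hk _) ?_ hvc ?_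
    (Nat.mul_pos hm hq) ?_
  · intro v
    rw [sum_tl, sum_ini, hbal]
  · rw [sum_all, htot]
  · intro x
    rw [sum_first, htot]

end Run7.h513.BGB
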