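import Pool.Agent.Run7.h513.BGB.Base

/-!
# Words of length two: weights coming from short cyclic sequences
-/

namespace Run7.h513.BGB

open Relation Finset

variable {m : ℕ} [NeZero m] {q : ℕ} [NeZero q]

/-- the windows of length two of a cyclic sequence -/
def wd (x : ZMod q → ZMod m) (i : ZMod q) : Fin 2 → ZMod m := ![x i, x (i + 1)]

/-- the number of occurrences of a word of length two -/
def wt2 (x : ZMod q → ZMod m) (w : Fin 2 → ZMod m) : ℕ := (univ.filter fun i => wd x i = w).card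

lemma wt2_sum (x : ZMod q → ZMod m) (p : (Fin 2 → ZMod m) → Prop) [DecidablePred p] :
    ∑ w with p w, wt2 x w = (univ.filter fun i => p (wd x i)).card := by
  rw [Finset.card_eq_sum_card_fiberwise (f := wd x) (t := univ.filter p)]
  · apply Finset.sum_congr rfl
    intro w hw
    simp only [Finset.mem_filter, Finset.mem_univ, true_and] at hw
    unfold wt2
    congr 1
    ext i
    simp only [Finset.mem_filter, Finset.mem_univ, true_and]
    constructor
    · intro h; exact ⟨by rw [h]; exact hw, h⟩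
    · intro h; exact h.2
  · intro i hi
    simpa using hi

omit [NeZero m] [NeZero q] in
lemma ini_wd (x : ZMod q → ZMod m) (i : ZMod q) : ini (wd x i) = cst 1 (x i) := by
  funext j; rw [Fin.eq_zero j]; rfl

omit [NeZero m] [NeZero q] in
lemma tl_wd (x : ZMod q → ZMod m) (i : ZMod q) : tl (wd x i) = cst 1 (x (i + 1)) := by
  funext j; rw [Fin.eq_zero j]; rfl

lemma R2_wd {x : ZMod q → ZMod m} (i : ZMod q) (h : wd x i ≠ 0) (s L : ZMod m) :
    R2 (wt2 x) (cst 1 (x i), s, L) (cst 1 (x (i + 1)), s + x i, L + 1) := by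
  refine ⟨wd x i, ?_, h, ini_wd x i, tl_wd x i, rfl, rfl⟩
  unfold wt2
  rw [Finset.card_pos]
  exact ⟨i, by simp⟩

theorem good_of_seq {x : ZMod q → ZMod m} (hinj : ∀ i j, x i = x j → x (i + 1) = x (j + 1) → i = j)
    (h00 : ∃ i, x i = 0 ∧ x (i + 1) = 0) (hact : ∃ i, x i = 0 ∧ x (i + 1) ≠ 0) (i0 : ZMod q)
    (A1 : ∀ s L, EqvGen (R2 (wt2 x)) (cst 1 (x i0), s, L) (cst 1 (x i0), s + 1, L))
    (A2 : ∀ s L, EqvGen (R2 (wt2 x)) (cst 1 (x i0), s, L) (cst 1 (x i0), s, L + 1)) :
    Good 1 q (wt2 x) := by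
  classical
  refine ⟨?_, ?_, ?_, ?_, ?_, ?_⟩
  · intro w
    unfold wt2
    rw [Finset.card_le_one]
    intro i hi j hj
    simp only [Finset.mem_filter, Finset.mem_univ, true_and] at hi hj
    have h : wd x i = wd x j := hi.trans hj.symm
    exact hinj i j (congrFun h 0) (congrFun h 1)
  · intro v
    rw [wt2_sum, wt2_sum]
    simp only [ini_wd, tl_wd]
    exact Finset.card_equiv (Equiv.addRight 1) (fun i => by simp)
  · have := wt2_sum x (fun _ => True)
    simp only [Finset.filter_true, Finset.card_univ, ZMod.card] at this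
    exact this
  · obtain ⟨i, h1, h2⟩ := h00
    unfold wt2
    rw [Nat.one_le_iff_ne_zero, ← Nat.pos_iff_ne_zero, Finset.card_pos]
    refine ⟨i, ?_⟩
    simp only [Finset.mem_filter, Finset.mem_univ, true_and]
    funext j
    match j with
    | 0 => exact h1
    | 1 => exact h2
  · obtain ⟨i, h1, h2⟩ := hact
    refine ⟨wd x i, ?_, ?_, ?_⟩
    · unfold wt2; rw [Finset.card_pos]; exact ⟨i, by simp⟩
    · intro h; exact h2 (congrFun h 1)
    · rw [ini_wd, h1]; rfl
  · have reach : ∀ (n : ℕ) (s L : ZMod m), ∃ s' L' : ZMod m,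
        EqvGen (R2 (wt2 x)) (cst 1 (x (i0 + n)), s, L) (cst 1 (x i0), s', L') := by
      intro n
      induction n with
      | zero => intro s L; exact ⟨s, L, by rw [Nat.cast_zero, add_zero]; exact EqvGen.refl _⟩
      | succ n ih =>
        intro s L
        rw [Nat.cast_succ, ← add_assoc]
        by_cases h : wd x (i0 + n) = 0
        · have e1 : x (i0 + n) = 0 := congrFun h 0
          have e2 : x (i0 + n + 1) = 0 := congrFun h 1
          rw [e2, ← e1]
          exact ih s L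
        · obtain ⟨s', L', h'⟩ := ih (s - x (i0 + n)) (L - 1)
          have e := R2_wd (i0 + (n : ZMod q)) h (s - x (i0 + n)) (L - 1)
          rw [sub_add_cancel, sub_add_cancel] at e
          exact ⟨s', L', (EqvGen.rel _ _ e).symm.trans _ _ _ h'⟩
    have hv : ∀ v, Act (wt2 x) v → ∃ n : ℕ, v = cst 1 (x (i0 + n)) := by
      rintro v ⟨u, hu1, _, rfl⟩
      unfold wt2 at hu1
      rw [Finset.card_pos] at hu1
      obtain ⟨i, hi⟩ := hu1
      simp only [Finset.mem_filter, Finset.mem_univ, true_and] at hi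
      refine ⟨(i - i0).val, ?_⟩
      rw [ZMod.natCast_zmod_val, add_sub_cancel, ← hi, ini_wd]
    intro v v' hvA hvA' y y'
    obtain ⟨n, rfl⟩ := hv v hvA
    obtain ⟨n', rfl⟩ := hv v' hvA'
    obtain ⟨s1, L1, e1⟩ := reach n y.1 y.2
    obtain ⟨s2, L2, e2⟩ := reach n' y'.1 y'.2
    have e3 := base_conn A1 A2 (s1, L1) (s2, L2)
    exact (e1.trans _ _ _ e3).trans _ _ _ e2.symm

/-- base point with a loop of letter one and another closed walk -/
lemma A_of_loop {α : Type*} {r : α × ZMod m × ZMod m → α × ZMod m × ZMod m → Prop} {v : α}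
    (h1 : ∀ s L, EqvGen r (v, s, L) (v, s + 1, L + 1))
    (h2 : (∀ s L, EqvGen r (v, s, L) (v, s + 1, L)) ∨ (∀ s L, EqvGen r (v, s, L) (v, s, L + 1))) :
    (∀ s L, EqvGen r (v, s, L) (v, s + 1, L)) ∧ (∀ s L, EqvGen r (v, s, L) (v, s, L + 1)) := by
  rcases h2 with h2 | h2
  · exact ⟨h2, fun s L => (h1 s L).trans _ _ _ (h2 s (L + 1)).symm⟩
  · exact ⟨fun s L => (h1 s L).trans _ _ _ (h2 (s + 1) L).symm, h2⟩

/-- the sequence `0, 0, 1, 1, 2, 2, ...` -/
def half (m q : ℕ) : ZMod q → ZMod m := fun i => ((i.val / 2 : ℕ) : ZMod m)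

theorem good_half (hm : 3 ≤ m) (h1 : 6 ≤ q) (h2 : q ≤ 2 * m) : Good 1 q (wt2 (half m q)) := by
  have hval : ∀ c : ℕ, c < q → ((c : ZMod q)).val = c := fun c hc => by
    rw [ZMod.val_natCast, Nat.mod_eq_of_lt hc]
  have hx : ∀ c : ℕ, c < q → half m q (c : ZMod q) = ((c / 2 : ℕ) : ZMod m) := fun c hc => by
    simp only [half, hval c hc]
  have hcast : ∀ a b : ℕ, a < m → b < m → (a : ZMod m) = b → a = b := by
    intro a b ha hb hab
    have := congrArg ZMod.val hab
    rwa [ZMod.val_natCast, ZMod.val_natCast, Nat.mod_eq_of_lt ha, Nat.mod_eq_of_lt hb] at this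
  have hsucc : ∀ i : ZMod q, (i + 1).val = if i.val + 1 = q then 0 else i.val + 1 := by
    intro i
    have hi := ZMod.val_lt i
    have h3 : (i + 1).val = (i.val + 1) % q := by
      have : i + 1 = ((i.val + 1 : ℕ) : ZMod q) := by
        rw [Nat.cast_succ, ZMod.natCast_zmod_val]
      rw [this, ZMod.val_natCast]
    rw [h3]
    split_ifs with h
    · rw [h, Nat.mod_self]
    · exact Nat.mod_eq_of_lt (by omega)
  have x1 : half m q 1 = 0 := by have := hx 1 (by omega); simpa using this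
  have x2 : half m q 2 = 1 := by
    have := hx 2 (by omega)
    simpa using this
  have x3 : half m q 3 = 1 := by
    have := hx 3 (by omega)
    simpa using this
  have x4 : half m q 4 = 2 := by
    have := hx 4 (by omega)
    simpa using this
  have x5 : half m q 5 = 2 := by
    have := hx 5 (by omega)
    simpa using this
  have x0 : half m q 0 = 0 := by have := hx 0 (by omega); simpa using this
  have a12 : (1 : ZMod q) + 1 = 2 := by norm_num
  have a23 : (2 : ZMod q) + 1 = 3 := by norm_num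
  have a34 : (3 : ZMod q) + 1 = 4 := by norm_num
  have a45 : (4 : ZMod q) + 1 = 5 := by norm_num
  -- the steps
  have L1 : ∀ s L : ZMod m, R2 (wt2 (half m q)) (cst 1 1, s, L) (cst 1 1, s + 1, L + 1) := by
    intro s L
    have := R2_wd (x := half m q) 2 (by
      intro h; have := congrFun h 0; simp only [wd, Matrix.cons_val_zero, x2] at this
      exact one_ne hm this) s L
    rwa [a23, x2, x3] at this
  have L2 : ∀ s L : ZMod m, R2 (wt2 (half m q)) (cst 1 2, s, L) (cst 1 2, s + 2, L + 1) := by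
    intro s L
    have := R2_wd (x := half m q) 4 (by
      intro h; have := congrFun h 0; simp only [wd, Matrix.cons_val_zero, x4] at this
      exact two_ne hm this) s L
    rwa [a45, x4, x5] at this
  have L12 : ∀ s L : ZMod m, R2 (wt2 (half m q)) (cst 1 1, s, L) (cst 1 2, s + 1, L + 1) := by
    intro s L
    have := R2_wd (x := half m q) 3 (by
      intro h; have := congrFun h 0; simp only [wd, Matrix.cons_val_zero, x3] at this
      exact one_ne hm this) s L
    rwa [a34, x3, x4] at this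
  have B1 : ∀ s L : ZMod m, EqvGen (R2 (wt2 (half m q))) (cst 1 1, s, L) (cst 1 1, s + 1, L) := by
    intro s L
    -- from `(1, s - 1, L - 1)`
    have e1 := EqvGen.rel _ _ (L1 (s - 1) (L - 1))
    have e2 := EqvGen.rel _ _ (L12 (s - 1) (L - 1))
    have e3 := EqvGen.rel _ _ (L2 (s - 1 + 1) (L - 1 + 1))
    have e4 := EqvGen.rel _ _ (L12 (s + 1) L)
    have r1 : s - 1 + 1 = s := by ring
    have r2 : L - 1 + 1 = L := by ring
    have r3 : s + 1 + 1 = s + 2 := by ring
    rw [r1, r2] at e1 e2 e3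
    rw [r3] at e4
    exact ((e1.symm.trans _ _ _ e2).trans _ _ _ e3).trans _ _ _ e4.symm
  obtain ⟨A1, A2⟩ := A_of_loop (fun s L => EqvGen.rel _ _ (L1 s L)) (Or.inl B1)
  refine good_of_seq ?_ ⟨0, x0, by rw [zero_add]; exact x1⟩
    ⟨1, x1, by rw [a12, x2]; exact one_ne hm⟩ 2 (by rwa [x2]) (by rwa [x2])
  intro i j h3 h4
  have hi := ZMod.val_lt i
  have hj := ZMod.val_lt j
  have e1 := hcast _ _ (by omega) (by omega) h3
  have e2 := hcast _ _ (by have := ZMod.val_lt (i + 1); omega)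
    (by have := ZMod.val_lt (j + 1); omega) h4
  rw [hsucc, hsucc] at e2
  apply ZMod.val_injective
  split_ifs at e2 <;> omega

/-- a cyclic sequence of length four -/
def x34 : ZMod 4 → ZMod 3 := (![0, 0, 1, 1] : Fin 4 → ZMod 3)

/-- a cyclic sequence of length five -/
def x35 : ZMod 5 → ZMod 3 := (![0, 0, 1, 0, 2] : Fin 5 → ZMod 3)

/-- a cyclic sequence of length five -/
def x45 : ZMod 5 → ZMod 4 := (![0, 0, 3, 1, 1] : Fin 5 → ZMod 4)

theorem good_34 : Good 1 4 (wt2 x34) := by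
  have L1 : ∀ s L : ZMod 3, R2 (wt2 x34) (cst 1 1, s, L) (cst 1 1, s + 1, L + 1) := by
    intro s L
    exact R2_wd (x := x34) 2 (by decide) s L
  have L2 : ∀ s L : ZMod 3, R2 (wt2 x34) (cst 1 1, s, L) (cst 1 0, s + 1, L + 1) := by
    intro s L
    exact R2_wd (x := x34) 3 (by decide) s L
  have L3 : ∀ s L : ZMod 3, R2 (wt2 x34) (cst 1 0, s, L) (cst 1 1, s + 0, L + 1) := by
    intro s L
    exact R2_wd (x := x34) 1 (by decide) s L
  have B2 : ∀ s L : ZMod 3, EqvGen (R2 (wt2 x34)) (cst 1 1, s, L) (cst 1 1, s, L + 1) := by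
    intro s L
    have e2 := EqvGen.rel _ _ (L2 s L)
    have e3 := EqvGen.rel _ _ (L3 (s + 1) (L + 1))
    have e1 := EqvGen.rel _ _ (L1 s (L + 1))
    rw [add_zero] at e3
    exact (e2.trans _ _ _ e3).trans _ _ _ e1.symm
  obtain ⟨A1, A2⟩ := A_of_loop (fun s L => EqvGen.rel _ _ (L1 s L)) (Or.inr B2)
  exact good_of_seq (by decide) (by decide) (by decide) 2 A1 A2

theorem good_35 : Good 1 5 (wt2 x35) := by
  have L1 : ∀ s L : ZMod 3, R2 (wt2 x35) (cst 1 0, s, L) (cst 1 1, s + 0, L + 1) := by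
    intro s L
    exact R2_wd (x := x35) 1 (by decide) s L
  have L2 : ∀ s L : ZMod 3, R2 (wt2 x35) (cst 1 1, s, L) (cst 1 0, s + 1, L + 1) := by
    intro s L
    exact R2_wd (x := x35) 2 (by decide) s L
  have L3 : ∀ s L : ZMod 3, R2 (wt2 x35) (cst 1 0, s, L) (cst 1 2, s + 0, L + 1) := by
    intro s L
    exact R2_wd (x := x35) 3 (by decide) s L
  have L4 : ∀ s L : ZMod 3, R2 (wt2 x35) (cst 1 2, s, L) (cst 1 0, s + 2, L + 1) := by
    intro s L
    exact R2_wd (x := x35) 4 (by decide) s L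
  have C1 : ∀ s L : ZMod 3, EqvGen (R2 (wt2 x35)) (cst 1 0, s, L) (cst 1 0, s + 1, L + 2) := by
    intro s L
    have e1 := EqvGen.rel _ _ (L1 s L)
    have e2 := EqvGen.rel _ _ (L2 s (L + 1))
    rw [add_zero] at e1
    have r : L + 1 + 1 = L + 2 := by ring
    rw [r] at e2
    exact e1.trans _ _ _ e2
  have C2 : ∀ s L : ZMod 3, EqvGen (R2 (wt2 x35)) (cst 1 0, s, L) (cst 1 0, s + 2, L + 2) := by
    intro s L
    have e1 := EqvGen.rel _ _ (L3 s L)
    have e2 := EqvGen.rel _ _ (L4 s (L + 1))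
    rw [add_zero] at e1
    have r : L + 1 + 1 = L + 2 := by ring
    rw [r] at e2
    exact e1.trans _ _ _ e2
  have A1 : ∀ s L : ZMod 3, EqvGen (R2 (wt2 x35)) (cst 1 0, s, L) (cst 1 0, s + 1, L) := by
    intro s L
    have e1 := C1 (s - 1) (L - 2)
    have e2 := C2 (s - 1) (L - 2)
    have r1 : s - 1 + 1 = s := by ring
    have r2 : s - 1 + 2 = s + 1 := by ring
    have r3 : L - 2 + 2 = L := by ring
    rw [r1, r3] at e1
    rw [r2, r3] at e2
    exact e1.symm.trans _ _ _ e2
  have A3 : ∀ s L : ZMod 3, EqvGen (R2 (wt2 x35)) (cst 1 0, s, L) (cst 1 0, s, L + 2) := by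
    intro s L
    exact (C1 s L).trans _ _ _ (A1 s (L + 2)).symm
  have A2 : ∀ s L : ZMod 3, EqvGen (R2 (wt2 x35)) (cst 1 0, s, L) (cst 1 0, s, L + 1) := by
    intro s L
    have := (A3 s L).trans _ _ _ (A3 s (L + 2))
    have r : L + 2 + 2 = L + 1 := by
      have : (4 : ZMod 3) = 1 := by decide
      calc L + 2 + 2 = L + 4 := by ring
        _ = L + 1 := by rw [this]
    rwa [r] at this
  exact good_of_seq (by decide) (by decide) (by decide) 0 A1 A2

theorem good_45 : Good 1 5 (wt2 x45) := by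
  have L1 : ∀ s L : ZMod 4, R2 (wt2 x45) (cst 1 1, s, L) (cst 1 1, s + 1, L + 1) := by
    intro s L
    exact R2_wd (x := x45) 3 (by decide) s L
  have L2 : ∀ s L : ZMod 4, R2 (wt2 x45) (cst 1 1, s, L) (cst 1 0, s + 1, L + 1) := by
    intro s L
    exact R2_wd (x := x45) 4 (by decide) s L
  have L3 : ∀ s L : ZMod 4, R2 (wt2 x45) (cst 1 0, s, L) (cst 1 3, s + 0, L + 1) := by
    intro s L
    exact R2_wd (x := x45) 1 (by decide) s L
  have L4 : ∀ s L : ZMod 4, R2 (wt2 x45) (cst 1 3, s, L) (cst 1 1, s + 3, L + 1) := by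
    intro s L
    exact R2_wd (x := x45) 2 (by decide) s L
  have B2 : ∀ s L : ZMod 4, EqvGen (R2 (wt2 x45)) (cst 1 1, s, L) (cst 1 1, s, L + 1) := by
    intro s L
    have e2 := EqvGen.rel _ _ (L2 s (L + 1))
    have e3 := EqvGen.rel _ _ (L3 (s + 1) (L + 1 + 1))
    have e4 := EqvGen.rel _ _ (L4 (s + 1) (L + 1 + 1 + 1))
    rw [add_zero] at e3
    have h4 : (4 : ZMod 4) = 0 := by decide
    have r1 : s + 1 + 3 = s := by
      calc s + 1 + 3 = s + 4 := by ring
        _ = s := by rw [h4, add_zero]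
    have r2 : L + 1 + 1 + 1 + 1 = L := by
      calc L + 1 + 1 + 1 + 1 = L + 4 := by ring
        _ = L := by rw [h4, add_zero]
    rw [r1, r2] at e4
    exact ((e2.trans _ _ _ e3).trans _ _ _ e4).symm
  obtain ⟨A1, A2⟩ := A_of_loop (fun s L => EqvGen.rel _ _ (L1 s L)) (Or.inr B2)
  exact good_of_seq (by decide) (by decide) (by decide) 3 A1 A2

end Run7.h513.BGB
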